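import Pool.Agent.H474.RZ.Stm

/-!
# Project RZ, task FOUR: the fourth power mean of `G_δ`
-/

set_option autoImplicit false

open Complex MeasureTheory Filter Topology
open scoped ENNReal

namespace Pool.Agent.H878.RZ.FOUR

open Pool.Agent.H474.RZ

/-- Hölder / Jensen for fourth powers. -/
theorem hol4 {α : Type*} [MeasurableSpace α] (ν : Measure α) {K F : α → ℝ≥0∞}
    (hK : AEMeasurable K ν) (hF : AEMeasurable F ν) :
    (∫⁻ x, K x * F x ∂ν) ^ 4 ≤ (∫⁻ x, K x ∂ν) ^ 3 * ∫⁻ x, K x * F x ^ 4 ∂ν := by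
  have hpq : (4 / 3 : ℝ).HolderConjugate 4 := by
    constructor <;> norm_num
  have h := ENNReal.lintegral_mul_le_Lp_mul_Lq ν hpq (f := fun x => K x ^ (3 / 4 : ℝ))
    (g := fun x => K x ^ (1 / 4 : ℝ) * F x) (hK.pow_const _) ((hK.pow_const _).mul hF)
  have e1 : ∀ x, K x ^ (3 / 4 : ℝ) * (K x ^ (1 / 4 : ℝ) * F x) = K x * F x := by
    intro x
    rw [← mul_assoc, ← ENNReal.rpow_add_of_nonneg _ _ (by norm_num) (by norm_num)]
    norm_num
  have e2 : ∀ x, (K x ^ (3 / 4 : ℝ)) ^ (4 / 3 : ℝ) = K x := by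
    intro x
    rw [← ENNReal.rpow_mul]
    norm_num
  have e3 : ∀ x, (K x ^ (1 / 4 : ℝ) * F x) ^ (4 : ℝ) = K x * F x ^ 4 := by
    intro x
    rw [ENNReal.mul_rpow_of_nonneg _ _ (by norm_num), ← ENNReal.rpow_mul]
    norm_num
  simp only [Pi.mul_apply, e1, e2, e3] at h
  calc (∫⁻ x, K x * F x ∂ν) ^ 4
      ≤ ((∫⁻ x, K x ∂ν) ^ (1 / (4 / 3) : ℝ) * (∫⁻ x, K x * F x ^ 4 ∂ν) ^ (1 / 4 : ℝ)) ^ 4 :=
        pow_le_pow_left' h 4
    _ = _ := by
      rw [mul_pow, ← ENNReal.rpow_natCast, ← ENNReal.rpow_natCast, ← ENNReal.rpow_mul,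
        ← ENNReal.rpow_mul]
      norm_num

/-- Convolution with a kernel. -/
theorem conv4 {K b : ℝ → ℝ≥0∞} (hK : Measurable K) (hb : Measurable b) :
    ∫⁻ x : ℝ, (∫⁻ y : ℝ, K y * b (x - y)) ^ 4 ≤ (∫⁻ y : ℝ, K y) ^ 4 * ∫⁻ x : ℝ, b x ^ 4 := by
  have hm : Measurable (fun p : ℝ × ℝ => K p.2 * b (p.1 - p.2) ^ 4) := by
    fun_prop
  calc ∫⁻ x : ℝ, (∫⁻ y : ℝ, K y * b (x - y)) ^ 4
      ≤ ∫⁻ x : ℝ, (∫⁻ y : ℝ, K y) ^ 3 * ∫⁻ y : ℝ, K y * b (x - y) ^ 4 :=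
        lintegral_mono fun x => hol4 volume hK.aemeasurable
          (hb.comp (measurable_const.sub measurable_id)).aemeasurable
    _ = (∫⁻ y : ℝ, K y) ^ 3 * ∫⁻ x : ℝ, ∫⁻ y : ℝ, K y * b (x - y) ^ 4 :=
        lintegral_const_mul _ (Measurable.lintegral_prod_right' hm)
    _ = (∫⁻ y : ℝ, K y) ^ 3 * ∫⁻ y : ℝ, ∫⁻ x : ℝ, K y * b (x - y) ^ 4 := by
        rw [lintegral_lintegral_swap hm.aemeasurable]
    _ = (∫⁻ y : ℝ, K y) ^ 3 * ∫⁻ y : ℝ, K y * ∫⁻ x : ℝ, b x ^ 4 := by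
        congr 1
        refine lintegral_congr fun y => ?_
        rw [lintegral_const_mul _ (by fun_prop)]
        congr 1
        exact lintegral_sub_right_eq_self (fun x => b x ^ 4) y
    _ = (∫⁻ y : ℝ, K y) ^ 4 * ∫⁻ x : ℝ, b x ^ 4 := by
        rw [lintegral_mul_const _ hK]
        ring

/-! ## The kernel -/

/-- the kernel -/
noncomputable def Kr (μ y : ℝ) : ℝ := Real.exp (-(y ^ 2 / (4 * μ)) + Real.pi / 4 * |y|)

theorem Kr_pos (μ y : ℝ) : 0 < Kr μ y := Real.exp_pos _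

theorem continuous_Kr (μ : ℝ) : Continuous (Kr μ) := by
  unfold Kr
  fun_prop

theorem integrable_Kr {μ : ℝ} (hμ : 0 < μ) : Integrable (Kr μ) := by
  have h := (integrable_exp_neg_mul_sq (b := 1 / (8 * μ)) (by positivity)).const_mul
    (Real.exp (μ * Real.pi ^ 2 / 8))
  refine h.mono' (continuous_Kr μ).aestronglyMeasurable (Eventually.of_forall fun y => ?_)
  rw [Real.norm_eq_abs, abs_of_pos (Kr_pos μ y)]
  unfold Kr
  rw [← Real.exp_add]
  apply Real.exp_le_exp.2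
  have h1 : 0 ≤ 1 / (8 * μ) * (|y| - μ * Real.pi) ^ 2 := by positivity
  have h2 : 1 / (8 * μ) * (|y| - μ * Real.pi) ^ 2 =
      1 / (8 * μ) * y ^ 2 - Real.pi / 4 * |y| + μ * Real.pi ^ 2 / 8 := by
    rw [sub_sq, sq_abs]
    field_simp
    ring
  have h3 : y ^ 2 / (4 * μ) = 1 / (8 * μ) * y ^ 2 + 1 / (8 * μ) * y ^ 2 := by
    field_simp
    ring
  linarith

/-! ## The block functions -/

/-- the block function -/
noncomputable def bb (σ δ : ℝ) (M : ℕ) (x : ℝ) : ℝ :=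
  Real.exp (al δ * x) * ‖hh (σ + I * x) * DD M (σ + I * x)‖

theorem bb_nonneg (σ δ : ℝ) (M : ℕ) (x : ℝ) : 0 ≤ bb σ δ M x := by
  unfold bb
  positivity

theorem continuous_hh {σ : ℝ} (hσ : -2 < σ) : Continuous (fun x : ℝ => hh (σ + I * x)) := by
  unfold hh
  apply Continuous.mul
  · apply Continuous.mul
    · fun_prop
    · rw [continuous_iff_continuousAt]
      intro x
      have h : ContinuousAt Complex.Gamma (1 + ((σ : ℂ) + I * x) / 2) := by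
        apply (Complex.differentiableAt_Gamma _ _).continuousAt
        intro m hm
        have := congrArg Complex.re hm
        simp at this
        have h2 : (0 : ℝ) ≤ m := Nat.cast_nonneg m
        linarith
      exact ContinuousAt.comp (f := fun x : ℝ => 1 + ((σ : ℂ) + I * x) / 2) h (by fun_prop)
  · fun_prop

theorem continuous_bb {σ : ℝ} (hσ : -2 < σ) (δ : ℝ) (M : ℕ) : Continuous (bb σ δ M) := by
  unfold bb
  have := continuous_hh hσ
  have h2 : Continuous (fun x : ℝ => DD M (σ + I * x)) := by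
    unfold DD
    fun_prop
  fun_prop

/-- the pointwise bound of a block -/
theorem A_bound {μ : ℝ} (hμ : 0 < μ) {δ : ℝ} (hδ : 0 ≤ δ) (hδ' : δ ≤ Real.pi / 4) (x a : ℝ)
    (ha : a = 1 ∨ a = -1) (M : ℕ) (A : ℂ)
    (hA : A = (Real.sqrt (4 * Real.pi * μ) : ℂ)⁻¹ *
      ∫ y : ℝ, cexp (-((y : ℂ) - I * a) ^ 2 / (4 * μ)) *
      (hh (1 / 2 - a + I * (x - y)) * DD M (1 / 2 - a + I * (x - y)))) :
    ‖(Real.exp (al δ * x) : ℂ) * A‖ₑ ≤
      ENNReal.ofReal ((Real.sqrt (4 * Real.pi * μ))⁻¹ * Real.exp (1 / (4 * μ))) *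
      ∫⁻ y : ℝ, ENNReal.ofReal (Kr μ y) * ENNReal.ofReal (bb (1 / 2 - a) δ M (x - y)) := by
  have hs : 0 ≤ (Real.sqrt (4 * Real.pi * μ))⁻¹ := by positivity
  rw [hA, ← mul_assoc, enorm_mul]
  have h1 : ‖(Real.exp (al δ * x) : ℂ) * (Real.sqrt (4 * Real.pi * μ) : ℂ)⁻¹‖ₑ =
      ENNReal.ofReal (Real.exp (al δ * x) * (Real.sqrt (4 * Real.pi * μ))⁻¹) := by
    rw [← ofReal_norm, norm_mul, norm_inv, norm_real, norm_real, Real.norm_eq_abs,
      Real.norm_eq_abs, abs_of_pos (Real.exp_pos _), abs_of_nonneg (Real.sqrt_nonneg _)]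
  rw [h1]
  calc ENNReal.ofReal (Real.exp (al δ * x) * (Real.sqrt (4 * Real.pi * μ))⁻¹) *
        ‖∫ y : ℝ, cexp (-((y : ℂ) - I * a) ^ 2 / (4 * μ)) *
          (hh (1 / 2 - a + I * (x - y)) * DD M (1 / 2 - a + I * (x - y)))‖ₑ
      ≤ ENNReal.ofReal (Real.exp (al δ * x) * (Real.sqrt (4 * Real.pi * μ))⁻¹) *
        ∫⁻ y : ℝ, ‖cexp (-((y : ℂ) - I * a) ^ 2 / (4 * μ)) *
          (hh (1 / 2 - a + I * (x - y)) * DD M (1 / 2 - a + I * (x - y)))‖ₑ := by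
        gcongr
        exact enorm_integral_le_lintegral_enorm _
    _ = ∫⁻ y : ℝ, ENNReal.ofReal (Real.exp (al δ * x) * (Real.sqrt (4 * Real.pi * μ))⁻¹) *
          ‖cexp (-((y : ℂ) - I * a) ^ 2 / (4 * μ)) *
          (hh (1 / 2 - a + I * (x - y)) * DD M (1 / 2 - a + I * (x - y)))‖ₑ :=
        (lintegral_const_mul' _ _ ENNReal.ofReal_ne_top).symm
    _ ≤ ∫⁻ y : ℝ, ENNReal.ofReal ((Real.sqrt (4 * Real.pi * μ))⁻¹ * Real.exp (1 / (4 * μ))) *
          (ENNReal.ofReal (Kr μ y) * ENNReal.ofReal (bb (1 / 2 - a) δ M (x - y))) := by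
        refine lintegral_mono fun y => ?_
        rw [← ofReal_norm, ← ENNReal.ofReal_mul (by positivity),
          ← ENNReal.ofReal_mul (Kr_pos μ y).le, ← ENNReal.ofReal_mul (by positivity)]
        apply ENNReal.ofReal_le_ofReal
        rw [norm_mul, Complex.norm_exp]
        have e1 : (-((y : ℂ) - I * a) ^ 2 / (4 * μ)).re = -(y ^ 2 / (4 * μ)) + 1 / (4 * μ) := by
          have e2 : (-((y : ℂ) - I * a) ^ 2 / (4 * μ)) =
              ((-(y ^ 2 / (4 * μ)) + 1 / (4 * μ) : ℝ) : ℂ) + ((y * a / (2 * μ) : ℝ) : ℂ) * I := by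
            have ha2 : (a : ℂ) ^ 2 = 1 := by
              rcases ha with rfl | rfl <;> norm_num
            have hμ0 : (μ : ℂ) ≠ 0 := by exact_mod_cast hμ.ne'
            push_cast
            field_simp
            have hI : (I : ℂ) ^ 2 = -1 := Complex.I_sq
            linear_combination (-2 * (a : ℂ) ^ 2) * hI + 2 * ha2
          rw [e2, Complex.add_re, Complex.ofReal_re, Complex.re_ofReal_mul, Complex.I_re, mul_zero,
            add_zero]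
        rw [e1]
        unfold bb
        have e3 : ((1 / 2 - a : ℝ) : ℂ) + I * ((x - y : ℝ) : ℂ) =
            1 / 2 - (a : ℂ) + I * ((x : ℂ) - y) := by
          push_cast
          ring
        rw [e3]
        set Z : ℝ := ‖hh (1 / 2 - a + I * (x - y)) * DD M (1 / 2 - a + I * (x - y))‖ with hZ
        have hZ0 : 0 ≤ Z := norm_nonneg _
        unfold Kr
        have e4 : Real.exp (al δ * x) * Real.exp (-(y ^ 2 / (4 * μ)) + 1 / (4 * μ)) ≤
            Real.exp (1 / (4 * μ)) * (Real.exp (-(y ^ 2 / (4 * μ)) + Real.pi / 4 * |y|) *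
              Real.exp (al δ * (x - y))) := by
          rw [← Real.exp_add, ← Real.exp_add, ← Real.exp_add]
          apply Real.exp_le_exp.2
          have h5 : al δ * y ≤ Real.pi / 4 * |y| := by
            have h6 : 0 ≤ al δ := by unfold al; linarith
            have h7 : al δ ≤ Real.pi / 4 := by unfold al; linarith
            calc al δ * y ≤ al δ * |y| := mul_le_mul_of_nonneg_left (le_abs_self y) h6
              _ ≤ Real.pi / 4 * |y| := mul_le_mul_of_nonneg_right h7 (abs_nonneg y)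
          linarith
        calc Real.exp (al δ * x) * (Real.sqrt (4 * Real.pi * μ))⁻¹ *
              (Real.exp (-(y ^ 2 / (4 * μ)) + 1 / (4 * μ)) * Z)
            = ((Real.sqrt (4 * Real.pi * μ))⁻¹ * Z) *
              (Real.exp (al δ * x) * Real.exp (-(y ^ 2 / (4 * μ)) + 1 / (4 * μ))) := by ring
          _ ≤ ((Real.sqrt (4 * Real.pi * μ))⁻¹ * Z) *
              (Real.exp (1 / (4 * μ)) * (Real.exp (-(y ^ 2 / (4 * μ)) + Real.pi / 4 * |y|) *
              Real.exp (al δ * (x - y)))) :=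
              mul_le_mul_of_nonneg_left e4 (by positivity)
          _ = _ := by ring
    _ = _ := lintegral_const_mul' _ _ ENNReal.ofReal_ne_top

/-! ## Sums -/

theorem tsum_dist_le (N : ℕ) (g : ℕ → ℝ≥0∞) :
    ∑' j : ℕ, g (Nat.dist j N) ≤ 2 * ∑' d : ℕ, g d := by
  have hinj : Function.Injective
      (fun j : ℕ => ((Nat.dist j N, decide (N ≤ j)) : ℕ × Bool)) := by
    intro i j h
    simp only [Prod.mk.injEq, decide_eq_decide, Nat.dist] at h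
    omega
  calc ∑' j : ℕ, g (Nat.dist j N)
      = ∑' j : ℕ, (fun p : ℕ × Bool => g p.1) (Nat.dist j N, decide (N ≤ j)) := rfl
    _ ≤ ∑' p : ℕ × Bool, (fun p : ℕ × Bool => g p.1) p :=
        ENNReal.tsum_comp_le_tsum_of_injective hinj _
    _ = ∑' d : ℕ, ∑' b : Bool, g d := ENNReal.tsum_prod (f := fun (d : ℕ) (_ : Bool) => g d)
    _ = 2 * ∑' d, g d := by
      rw [← ENNReal.tsum_mul_left]
      congr 1
      funext d
      simp [two_mul]

theorem tsum_geo {q : ℝ} (h0 : 0 ≤ q) (h1 : q < 1) (N : ℕ) :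
    ∑' j : ℕ, ENNReal.ofReal (q ^ (Nat.dist j N)) ≤ ENNReal.ofReal (2 * (1 - q)⁻¹) := by
  refine (tsum_dist_le N (fun d => ENNReal.ofReal (q ^ d))).trans ?_
  rw [← ENNReal.ofReal_tsum_of_nonneg (fun n => pow_nonneg h0 n)
    (summable_geometric_of_lt_one h0 h1), tsum_geometric_of_lt_one h0 h1,
    ENNReal.ofReal_mul (by norm_num)]
  norm_num

theorem hol4_tsum (w g : ℕ → ℝ≥0∞) (hw0 : ∀ j, w j ≠ 0) (hw : ∀ j, w j ≠ ∞) :
    (∑' j, g j) ^ 4 ≤ (∑' j, w j) ^ 3 * ∑' j, (w j)⁻¹ ^ 3 * g j ^ 4 := by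
  have h := hol4 (Measure.count : Measure ℕ) (K := w) (F := fun j => g j * (w j)⁻¹)
    (measurable_of_countable _).aemeasurable (measurable_of_countable _).aemeasurable
  rw [lintegral_count, lintegral_count, lintegral_count] at h
  have e1 : ∀ j, w j * (g j * (w j)⁻¹) = g j := by
    intro j
    rw [mul_comm (g j), ← mul_assoc, ENNReal.mul_inv_cancel (hw0 j) (hw j), one_mul]
  have e2 : ∀ j, w j * (g j * (w j)⁻¹) ^ 4 = (w j)⁻¹ ^ 3 * g j ^ 4 := by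
    intro j
    calc w j * (g j * (w j)⁻¹) ^ 4 = (w j * (w j)⁻¹) * ((w j)⁻¹ ^ 3 * g j ^ 4) := by ring
      _ = _ := by rw [ENNReal.mul_inv_cancel (hw0 j) (hw j), one_mul]
  simp only [e1, e2] at h
  exact h

/-- the choice of the line -/
noncomputable def aj (N j : ℕ) : ℝ := if j ≤ N then 1 else -1

theorem aj_or (N j : ℕ) : aj N j = 1 ∨ aj N j = -1 := by
  unfold aj
  split_ifs <;> simp

theorem block_bound {C δ : ℝ} (hC : 0 < C) (hδ : 0 < δ)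
    (hB : ∀ M : ℕ, 1 ≤ M → (Integrable (B4 (3 / 2) δ M) ∧ Integrable (B4 (-(1 / 2)) δ M)) ∧
      (1 ≤ (M : ℝ) ^ 2 * δ → (∫ x, B4 (3 / 2) δ M x) ≤
        C * (δ ^ 8)⁻¹ * ((M : ℝ) ^ 2 * δ)⁻¹ * (1 + Real.log M)) ∧
      ((M : ℝ) ^ 2 * δ ≤ 1 → (∫ x, B4 (-(1 / 2)) δ M x) ≤
        C * (δ ^ 8)⁻¹ * ((M : ℝ) ^ 2 * δ) ^ 2 * (1 + Real.log M)))
    {N : ℕ} (hN1 : (4 : ℝ) ^ N ≤ 1 / δ) (hN2 : 1 / δ < 4 ^ (N + 1)) (j : ℕ) :
    ∫⁻ x : ℝ, ENNReal.ofReal (bb (1 / 2 - aj N j) δ (2 ^ j) x) ^ 4 ≤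
      ENNReal.ofReal (C * (δ ^ 8)⁻¹ * 4 * (1 + N) * (1 / 2) ^ (Nat.dist j N)) := by
  have hM : 1 ≤ 2 ^ j := Nat.one_le_two_pow
  obtain ⟨⟨hi1, hi2⟩, hb1, hb2⟩ := hB (2 ^ j) hM
  have hM2 : (((2 ^ j : ℕ) : ℝ)) ^ 2 * δ = 4 ^ j * δ := by
    push_cast
    rw [← pow_mul, mul_comm j 2, pow_mul]
    norm_num
  have hlog : Real.log ((2 ^ j : ℕ) : ℝ) ≤ j := by
    push_cast
    rw [Real.log_pow]
    have := Real.log_two_lt_d9
    have h0 : (0 : ℝ) ≤ j := Nat.cast_nonneg j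
    nlinarith
  have hlog0 : 0 ≤ Real.log ((2 ^ j : ℕ) : ℝ) := Real.log_nonneg (by exact_mod_cast hM)
  have key : ∀ σ : ℝ, Integrable (B4 σ δ (2 ^ j)) →
      ∫⁻ x : ℝ, ENNReal.ofReal (bb σ δ (2 ^ j) x) ^ 4 =
        ENNReal.ofReal (∫ x, B4 σ δ (2 ^ j) x) := by
    intro σ hσ
    rw [ofReal_integral_eq_lintegral_ofReal hσ (Eventually.of_forall fun x => by
      simp only [Pi.zero_apply]; unfold B4; positivity)]
    refine lintegral_congr fun x => ?_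
    rw [← ENNReal.ofReal_pow (bb_nonneg _ _ _ _)]
    rfl
  have hδ8 : 0 < C * (δ ^ 8)⁻¹ := by positivity
  rw [hM2] at hb1 hb2
  by_cases hj : j ≤ N
  · have ha : aj N j = 1 := if_pos hj
    have hσ : (1 / 2 - aj N j : ℝ) = -(1 / 2) := by rw [ha]; norm_num
    rw [hσ, key _ hi2]
    apply ENNReal.ofReal_le_ofReal
    have hd : Nat.dist j N = N - j := Nat.dist_eq_sub_of_le hj
    have hr : (4 : ℝ) ^ j * δ ≤ (1 / 4) ^ (N - j) := by
      rw [div_pow, one_pow, le_div_iff₀ (by positivity)]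
      calc (4 : ℝ) ^ j * δ * 4 ^ (N - j) = 4 ^ (j + (N - j)) * δ := by rw [pow_add]; ring
        _ = 4 ^ N * δ := by rw [Nat.add_sub_cancel' hj]
        _ ≤ (1 / δ) * δ := by gcongr
        _ = 1 := by field_simp
    have hr1 : (4 : ℝ) ^ j * δ ≤ 1 := hr.trans (pow_le_one₀ (by norm_num) (by norm_num))
    refine (hb2 hr1).trans ?_
    have h1 : ((4 : ℝ) ^ j * δ) ^ 2 ≤ (1 / 2) ^ (N - j) := by
      calc ((4 : ℝ) ^ j * δ) ^ 2 ≤ (4 : ℝ) ^ j * δ := by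
            rw [sq]
            exact mul_le_of_le_one_left (by positivity) hr1
        _ ≤ (1 / 4) ^ (N - j) := hr
        _ ≤ (1 / 2) ^ (N - j) := by gcongr; norm_num
    have h2 : 1 + Real.log ((2 ^ j : ℕ) : ℝ) ≤ 1 + N := by
      have : (j : ℝ) ≤ N := by exact_mod_cast hj
      linarith
    rw [hd]
    calc C * (δ ^ 8)⁻¹ * ((4 : ℝ) ^ j * δ) ^ 2 * (1 + Real.log ((2 ^ j : ℕ) : ℝ))
        ≤ C * (δ ^ 8)⁻¹ * (1 / 2) ^ (N - j) * (1 + N) := by gcongr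
      _ ≤ C * (δ ^ 8)⁻¹ * (1 / 2) ^ (N - j) * (1 + N) * 4 := by
          apply le_mul_of_one_le_right (by positivity) (by norm_num)
      _ = _ := by ring
  · have ha : aj N j = -1 := if_neg hj
    have hσ : (1 / 2 - aj N j : ℝ) = 3 / 2 := by rw [ha]; norm_num
    rw [hσ, key _ hi1]
    apply ENNReal.ofReal_le_ofReal
    push Not at hj
    have hd : Nat.dist j N = j - N := Nat.dist_eq_sub_of_le_right hj.le
    obtain ⟨d, rfl⟩ : ∃ d, j = N + 1 + d := ⟨j - (N + 1), by omega⟩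
    have hd' : Nat.dist (N + 1 + d) N = d + 1 := by rw [hd]; omega
    have hr : (4 : ℝ) ^ d ≤ 4 ^ (N + 1 + d) * δ := by
      calc (4 : ℝ) ^ d = 4 ^ d * ((1 / δ) * δ) := by field_simp
        _ ≤ 4 ^ d * (4 ^ (N + 1) * δ) := by gcongr
        _ = _ := by rw [pow_add (4 : ℝ) (N + 1) d]; ring
    have hr1 : (1 : ℝ) ≤ 4 ^ (N + 1 + d) * δ := (one_le_pow₀ (by norm_num)).trans hr
    refine (hb1 hr1).trans ?_
    have h1 : ((4 : ℝ) ^ (N + 1 + d) * δ)⁻¹ ≤ (1 / 4) ^ d := by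
      rw [div_pow, one_pow, one_div]
      exact inv_anti₀ (by positivity) hr
    have h2 : 1 + Real.log ((2 ^ (N + 1 + d) : ℕ) : ℝ) ≤ (1 + N) * 2 ^ (d + 1) := by
      have h3 : ((N + 1 + d : ℕ) : ℝ) = N + 1 + d := by push_cast; ring
      have h4 : (d : ℝ) + 2 ≤ 2 ^ (d + 1) := by
        have : d + 1 < 2 ^ (d + 1) := Nat.lt_two_pow_self
        have h5 : d + 2 ≤ 2 ^ (d + 1) := this
        exact_mod_cast h5
      have h6 : (0 : ℝ) ≤ N := Nat.cast_nonneg N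
      have h7 : (0 : ℝ) ≤ d := Nat.cast_nonneg d
      calc 1 + Real.log ((2 ^ (N + 1 + d) : ℕ) : ℝ) ≤ 1 + (N + 1 + d) := by
            rw [← h3]; linarith
        _ ≤ (1 + N) * (d + 2) := by nlinarith
        _ ≤ _ := by gcongr
    rw [hd']
    calc C * (δ ^ 8)⁻¹ * ((4 : ℝ) ^ (N + 1 + d) * δ)⁻¹ *
          (1 + Real.log ((2 ^ (N + 1 + d) : ℕ) : ℝ))
        ≤ C * (δ ^ 8)⁻¹ * (1 / 4) ^ d * ((1 + N) * 2 ^ (d + 1)) := by gcongr
      _ = C * (δ ^ 8)⁻¹ * 4 * (1 + N) * ((1 / 4) ^ (d + 1) * 2 ^ (d + 1)) := by ring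
      _ = _ := by rw [← mul_pow]; norm_num

theorem main_bound {μ : ℝ} (hμ : 0 < μ) {C δ : ℝ} (hC : 0 < C) (hδ : 0 < δ) (hδ' : δ ≤ 1 / 10)
    (hB : ∀ M : ℕ, 1 ≤ M → (Integrable (B4 (3 / 2) δ M) ∧ Integrable (B4 (-(1 / 2)) δ M)) ∧
      (1 ≤ (M : ℝ) ^ 2 * δ → (∫ x, B4 (3 / 2) δ M x) ≤
        C * (δ ^ 8)⁻¹ * ((M : ℝ) ^ 2 * δ)⁻¹ * (1 + Real.log M)) ∧
      ((M : ℝ) ^ 2 * δ ≤ 1 → (∫ x, B4 (-(1 / 2)) δ M x) ≤
        C * (δ ^ 8)⁻¹ * ((M : ℝ) ^ 2 * δ) ^ 2 * (1 + Real.log M)))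
    (A : ℝ → ℕ → ℂ) (hA1 : ∀ x, HasSum (A x) (XiM μ x))
    (hA2 : ∀ (x : ℝ) (j : ℕ) (a : ℝ), a = 1 ∨ a = -1 →
      A x j = (Real.sqrt (4 * Real.pi * μ) : ℂ)⁻¹ *
      ∫ y : ℝ, cexp (-((y : ℂ) - I * a) ^ 2 / (4 * μ)) *
      (hh (1 / 2 - a + I * (x - y)) * DD (2 ^ j) (1 / 2 - a + I * (x - y)))) :
    ∫⁻ x : ℝ, ENNReal.ofReal (Real.exp (al δ * x) * ‖XiM μ x‖) ^ 4 ≤
      ENNReal.ofReal (12 ^ 3 * (((Real.sqrt (4 * Real.pi * μ))⁻¹ * Real.exp (1 / (4 * μ))) ^ 4 *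
        (∫ y, Kr μ y) ^ 4 * (C * (δ ^ 8)⁻¹ * 4 * (2 * Real.log (1 / δ))) * (250 / 17))) := by
  have hpi := Real.pi_gt_three
  -- the number `N`
  have h1δ : (10 : ℝ) ≤ 1 / δ := by
    rw [le_div_iff₀ hδ]
    linarith
  obtain ⟨N, hN1, hN2⟩ := exists_nat_pow_near (x := 1 / δ) (y := 4) (by linarith) (by norm_num)
  have hlog1 : 1 ≤ Real.log (1 / δ) := by
    rw [Real.le_log_iff_exp_le (by positivity)]
    have := Real.exp_one_lt_d9
    linarith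
  have hN : (1 + N : ℝ) ≤ 2 * Real.log (1 / δ) := by
    have h1 : Real.log ((4 : ℝ) ^ N) ≤ Real.log (1 / δ) := Real.log_le_log (by positivity) hN1
    rw [Real.log_pow] at h1
    have h4 : 1 ≤ Real.log 4 := by
      rw [Real.le_log_iff_exp_le (by norm_num)]
      have := Real.exp_one_lt_d9
      linarith
    have h0 : (0 : ℝ) ≤ N := Nat.cast_nonneg N
    nlinarith
  set c0 : ℝ := (Real.sqrt (4 * Real.pi * μ))⁻¹ * Real.exp (1 / (4 * μ)) with hc0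
  have hc00 : 0 ≤ c0 := by positivity
  have hκ : ∫⁻ y, ENNReal.ofReal (Kr μ y) = ENNReal.ofReal (∫ y, Kr μ y) :=
    (ofReal_integral_eq_lintegral_ofReal (integrable_Kr hμ)
      (Eventually.of_forall fun y => (Kr_pos μ y).le)).symm
  have hκ0 : 0 ≤ ∫ y, Kr μ y := integral_nonneg fun y => (Kr_pos μ y).le
  -- the majorants
  set g : ℕ → ℝ → ℝ≥0∞ := fun j x => ENNReal.ofReal c0 *
    ∫⁻ y : ℝ, ENNReal.ofReal (Kr μ y) * ENNReal.ofReal (bb (1 / 2 - aj N j) δ (2 ^ j) (x - y))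
    with hg
  have hbm : ∀ j, Measurable (fun x => ENNReal.ofReal (bb (1 / 2 - aj N j) δ (2 ^ j) x)) := by
    intro j
    apply Measurable.ennreal_ofReal
    apply (continuous_bb _ δ (2 ^ j)).measurable
    rcases aj_or N j with h | h <;> rw [h] <;> norm_num
  have hKm : Measurable (fun y => ENNReal.ofReal (Kr μ y)) :=
    (continuous_Kr μ).measurable.ennreal_ofReal
  have hgm : ∀ j, Measurable (g j) := by
    intro j
    apply Measurable.const_mul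
    have hm : Measurable (fun p : ℝ × ℝ => ENNReal.ofReal (Kr μ p.2) *
        ENNReal.ofReal (bb (1 / 2 - aj N j) δ (2 ^ j) (p.1 - p.2))) :=
      (hKm.comp measurable_snd).mul ((hbm j).comp (measurable_fst.sub measurable_snd))
    exact Measurable.lintegral_prod_right' hm
  have hpt : ∀ x : ℝ, ENNReal.ofReal (Real.exp (al δ * x) * ‖XiM μ x‖) ≤ ∑' j, g j x := by
    intro x
    have h1 : HasSum (fun j => (Real.exp (al δ * x) : ℂ) * A x j)
        ((Real.exp (al δ * x) : ℂ) * XiM μ x) := (hA1 x).mul_left _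
    have h2 : ENNReal.ofReal (Real.exp (al δ * x) * ‖XiM μ x‖) =
        ‖(Real.exp (al δ * x) : ℂ) * XiM μ x‖ₑ := by
      rw [← ofReal_norm, norm_mul, norm_real, Real.norm_eq_abs, abs_of_pos (Real.exp_pos _)]
    rw [h2, ← h1.tsum_eq]
    refine enorm_tsum_le_tsum_enorm.trans ?_
    refine ENNReal.tsum_le_tsum fun j => ?_
    exact A_bound hμ hδ.le (by linarith) x (aj N j) (aj_or N j) (2 ^ j) (A x j)
      (hA2 x j (aj N j) (aj_or N j))
  -- the weights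
  set w : ℕ → ℝ≥0∞ := fun j => ENNReal.ofReal ((5 / 6) ^ (Nat.dist j N)) with hw
  have hw0 : ∀ j, w j ≠ 0 := by
    intro j
    simp only [hw, ne_eq, ENNReal.ofReal_eq_zero, not_le]
    positivity
  have hwt : ∀ j, w j ≠ ∞ := fun j => ENNReal.ofReal_ne_top
  have hwi : ∀ j, (w j)⁻¹ ^ 3 = ENNReal.ofReal ((216 / 125) ^ (Nat.dist j N)) := by
    intro j
    simp only [hw]
    rw [← ENNReal.ofReal_inv_of_pos (by positivity), ← ENNReal.ofReal_pow (by positivity)]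
    congr 1
    rw [← inv_pow, ← pow_mul, mul_comm, pow_mul]
    norm_num
  have hgint : ∀ j, ∫⁻ x, g j x ^ 4 ≤ ENNReal.ofReal (c0 ^ 4 * (∫ y, Kr μ y) ^ 4 *
      (C * (δ ^ 8)⁻¹ * 4 * (1 + N) * (1 / 2) ^ (Nat.dist j N))) := by
    intro j
    calc ∫⁻ x, g j x ^ 4 = ∫⁻ x, ENNReal.ofReal c0 ^ 4 * (∫⁻ y : ℝ, ENNReal.ofReal (Kr μ y) *
          ENNReal.ofReal (bb (1 / 2 - aj N j) δ (2 ^ j) (x - y))) ^ 4 := by
          refine lintegral_congr fun x => ?_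
          simp only [hg, mul_pow]
      _ = ENNReal.ofReal c0 ^ 4 * ∫⁻ x, (∫⁻ y : ℝ, ENNReal.ofReal (Kr μ y) *
          ENNReal.ofReal (bb (1 / 2 - aj N j) δ (2 ^ j) (x - y))) ^ 4 :=
          lintegral_const_mul' _ _ (ENNReal.pow_ne_top ENNReal.ofReal_ne_top)
      _ ≤ ENNReal.ofReal c0 ^ 4 * ((∫⁻ y : ℝ, ENNReal.ofReal (Kr μ y)) ^ 4 *
          ∫⁻ x : ℝ, ENNReal.ofReal (bb (1 / 2 - aj N j) δ (2 ^ j) x) ^ 4) := by
          gcongr
          exact conv4 hKm (hbm j)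
      _ ≤ ENNReal.ofReal c0 ^ 4 * ((∫⁻ y : ℝ, ENNReal.ofReal (Kr μ y)) ^ 4 *
          ENNReal.ofReal (C * (δ ^ 8)⁻¹ * 4 * (1 + N) * (1 / 2) ^ (Nat.dist j N))) := by
          gcongr
          exact block_bound hC hδ hB hN1 hN2 j
      _ = _ := by
          rw [hκ, ← ENNReal.ofReal_pow hc00, ← ENNReal.ofReal_pow hκ0,
            ← ENNReal.ofReal_mul (by positivity), ← ENNReal.ofReal_mul (by positivity)]
          congr 1
          ring
  have hwsum : ∑' j, w j ≤ ENNReal.ofReal 12 := by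
    refine (tsum_geo (by norm_num) (by norm_num) N).trans ?_
    norm_num
  calc ∫⁻ x : ℝ, ENNReal.ofReal (Real.exp (al δ * x) * ‖XiM μ x‖) ^ 4
      ≤ ∫⁻ x : ℝ, (∑' j, w j) ^ 3 * ∑' j, (w j)⁻¹ ^ 3 * g j x ^ 4 := by
        refine lintegral_mono fun x => ?_
        exact (pow_le_pow_left' (hpt x) 4).trans (hol4_tsum w (fun j => g j x) hw0 hwt)
    _ ≤ ∫⁻ x : ℝ, (ENNReal.ofReal 12) ^ 3 * ∑' j, (w j)⁻¹ ^ 3 * g j x ^ 4 := by
        refine lintegral_mono fun x => ?_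
        gcongr
    _ = (ENNReal.ofReal 12) ^ 3 * ∫⁻ x : ℝ, ∑' j, (w j)⁻¹ ^ 3 * g j x ^ 4 :=
        lintegral_const_mul' _ _ (ENNReal.pow_ne_top ENNReal.ofReal_ne_top)
    _ = (ENNReal.ofReal 12) ^ 3 * ∑' j, ∫⁻ x : ℝ, (w j)⁻¹ ^ 3 * g j x ^ 4 := by
        rw [lintegral_tsum fun j => (((hgm j).pow_const 4).const_mul _).aemeasurable]
    _ = (ENNReal.ofReal 12) ^ 3 * ∑' j, (w j)⁻¹ ^ 3 * ∫⁻ x : ℝ, g j x ^ 4 := by
        congr 2
        funext j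
        exact lintegral_const_mul _ ((hgm j).pow_const 4)
    _ ≤ (ENNReal.ofReal 12) ^ 3 * ∑' j, ENNReal.ofReal (c0 ^ 4 * (∫ y, Kr μ y) ^ 4 *
          (C * (δ ^ 8)⁻¹ * 4 * (1 + N))) * ENNReal.ofReal ((108 / 125) ^ (Nat.dist j N)) := by
        refine mul_le_mul_right (ENNReal.tsum_le_tsum fun j => ?_) _
        rw [hwi j]
        calc ENNReal.ofReal ((216 / 125) ^ (Nat.dist j N)) * ∫⁻ x : ℝ, g j x ^ 4
            ≤ ENNReal.ofReal ((216 / 125) ^ (Nat.dist j N)) *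
              ENNReal.ofReal (c0 ^ 4 * (∫ y, Kr μ y) ^ 4 *
              (C * (δ ^ 8)⁻¹ * 4 * (1 + N) * (1 / 2) ^ (Nat.dist j N))) := by
              gcongr
              exact hgint j
          _ = _ := by
              rw [← ENNReal.ofReal_mul (by positivity), ← ENNReal.ofReal_mul (by positivity)]
              congr 1
              have : (216 / 125 : ℝ) ^ (Nat.dist j N) * (1 / 2) ^ (Nat.dist j N) =
                  (108 / 125) ^ (Nat.dist j N) := by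
                rw [← mul_pow]
                norm_num
              linear_combination (c0 ^ 4 * (∫ y, Kr μ y) ^ 4 *
                (C * (δ ^ 8)⁻¹ * 4 * (1 + N))) * this
    _ = (ENNReal.ofReal 12) ^ 3 * (ENNReal.ofReal (c0 ^ 4 * (∫ y, Kr μ y) ^ 4 *
          (C * (δ ^ 8)⁻¹ * 4 * (1 + N))) * ∑' j, ENNReal.ofReal ((108 / 125) ^ (Nat.dist j N))) := by
        rw [ENNReal.tsum_mul_left]
    _ ≤ (ENNReal.ofReal 12) ^ 3 * (ENNReal.ofReal (c0 ^ 4 * (∫ y, Kr μ y) ^ 4 *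
          (C * (δ ^ 8)⁻¹ * 4 * (2 * Real.log (1 / δ)))) * ENNReal.ofReal (250 / 17)) := by
        gcongr
        refine (tsum_geo (by norm_num) (by norm_num) N).trans ?_
        norm_num
    _ = _ := by
        rw [← ENNReal.ofReal_pow (by norm_num), ← ENNReal.ofReal_mul (by positivity),
          ← ENNReal.ofReal_mul (by positivity)]

theorem t_FOUR : S_FOUR := by
  intro hB hH μ hμ
  obtain ⟨C, hC, hB⟩ := hB
  have hpi := Real.pi_gt_three
  choose A hA1 hA2 using fun x => hH μ x hμ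
  set c0 : ℝ := (Real.sqrt (4 * Real.pi * μ))⁻¹ * Real.exp (1 / (4 * μ)) with hc0
  have hκ0 : 0 ≤ ∫ y, Kr μ y := integral_nonneg fun y => (Kr_pos μ y).le
  refine ⟨12 ^ 3 * (c0 ^ 4 * (∫ y, Kr μ y) ^ 4 * (C * 8) * (250 / 17)) + 1, by positivity,
    fun δ hδ hδ' => ?_⟩
  have hm := main_bound hμ hC hδ hδ' (fun M hM => hB M δ hM hδ (by linarith)) A hA1
    (fun x j a ha => (hA2 x j a ha).2)
  have hlog0 : 0 ≤ Real.log (1 / δ) := by
    apply Real.log_nonneg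
    rw [le_div_iff₀ hδ]
    linarith
  have hcont : Continuous (fun x : ℝ => (Real.exp (al δ * x) * ‖XiM μ x‖) ^ 4) := by
    have h1 : Continuous (XiM μ) :=
      (Pool.Agent.Helper242.KK.differentiable_XiM hμ.le).continuous
    fun_prop
  have hnn : ∀ x : ℝ, 0 ≤ (Real.exp (al δ * x) * ‖XiM μ x‖) ^ 4 := fun x => by positivity
  have heq : ∫⁻ x : ℝ, ENNReal.ofReal ((Real.exp (al δ * x) * ‖XiM μ x‖) ^ 4) =
      ∫⁻ x : ℝ, ENNReal.ofReal (Real.exp (al δ * x) * ‖XiM μ x‖) ^ 4 := by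
    refine lintegral_congr fun x => ?_
    rw [ENNReal.ofReal_pow (by positivity)]
  rw [← heq] at hm
  constructor
  · refine ⟨hcont.aestronglyMeasurable, ?_⟩
    rw [hasFiniteIntegral_iff_ofReal (Eventually.of_forall hnn)]
    exact lt_of_le_of_lt hm ENNReal.ofReal_lt_top
  · rw [integral_eq_lintegral_of_nonneg_ae (Eventually.of_forall hnn) hcont.aestronglyMeasurable]
    refine (ENNReal.toReal_le_of_le_ofReal (by positivity) hm).trans ?_
    have h8 : 0 ≤ (δ ^ 8)⁻¹ * Real.log (1 / δ) := by positivity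
    calc 12 ^ 3 * (c0 ^ 4 * (∫ y, Kr μ y) ^ 4 * (C * (δ ^ 8)⁻¹ * 4 * (2 * Real.log (1 / δ))) *
          (250 / 17))
        = 12 ^ 3 * (c0 ^ 4 * (∫ y, Kr μ y) ^ 4 * (C * 8) * (250 / 17)) *
          ((δ ^ 8)⁻¹ * Real.log (1 / δ)) := by ring
      _ ≤ (12 ^ 3 * (c0 ^ 4 * (∫ y, Kr μ y) ^ 4 * (C * 8) * (250 / 17)) + 1) *
          ((δ ^ 8)⁻¹ * Real.log (1 / δ)) := by gcongr; linarith
      _ = _ := by ring

end Pool.Agent.H878.RZ.FOUR
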