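import Pool.Agent.H474.RZ.Stm

/-!
# Project RZ (helper474, MP_023270_nt), task HREP (helper878)

`Ξ_{-μ}` as the sum of its dyadic blocks, each on a line of our choice.
-/

set_option autoImplicit false

open Complex MeasureTheory Filter Topology
open Pool.Agent.H474.RZ

namespace Pool.Agent.H878.RZ.HREP

/-! ## The Gamma integral on the whole line -/

theorem gi_real {c σ : ℝ} (hc : 0 < c) (hσ : 0 < σ) :
    Integrable (fun t : ℝ => Real.exp (2 * σ * t) * Real.exp (-(c * Real.exp (2 * t)))) := by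
  have himg : (fun t : ℝ => Real.exp (2 * t)) '' Set.univ = Set.Ioi (0 : ℝ) := by
    ext v
    constructor
    · rintro ⟨t, -, rfl⟩
      exact Real.exp_pos _
    · intro hv
      refine ⟨Real.log v / 2, Set.mem_univ _, ?_⟩
      simp only
      rw [show 2 * (Real.log v / 2) = Real.log v by ring, Real.exp_log hv]
  have hder : ∀ t ∈ (Set.univ : Set ℝ), HasDerivWithinAt (fun t : ℝ => Real.exp (2 * t))
      (2 * Real.exp (2 * t)) Set.univ t := by
    intro t _
    have h := ((hasDerivAt_id t).const_mul (2 : ℝ)).exp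
    simp only [id, mul_one] at h
    exact (h.congr_deriv (by ring)).hasDerivWithinAt
  have hinj : Set.InjOn (fun t : ℝ => Real.exp (2 * t)) Set.univ := by
    intro a _ b _ hab
    have := Real.exp_injective hab
    linarith
  have h1 := (integrableOn_image_iff_integrableOn_abs_deriv_smul MeasurableSet.univ hder hinj
    (fun v : ℝ => v ^ (σ - 1) * Real.exp (-c * v ^ (1 : ℝ)))).1
  rw [himg] at h1
  have h2 := h1 (integrableOn_rpow_mul_exp_neg_mul_rpow (by linarith) one_pos hc)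
  rw [integrableOn_univ] at h2
  have h3 := h2.const_mul (1 / 2 : ℝ)
  refine h3.congr (Eventually.of_forall fun t => ?_)
  simp only [smul_eq_mul, Real.rpow_one]
  rw [abs_of_pos (by positivity), ← Real.exp_mul]
  have e : Real.exp (2 * σ * t) = Real.exp (2 * t) * Real.exp (2 * t * (σ - 1)) := by
    rw [← Real.exp_add]
    congr 1
    ring
  rw [e, show -c * Real.exp (2 * t) = -(c * Real.exp (2 * t)) by ring]
  ring

theorem gi_int {c : ℝ} (hc : 0 < c) {z : ℂ} (hz : 0 < z.re) :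
    Integrable (fun t : ℝ => cexp (2 * z * t) * (Real.exp (-(c * Real.exp (2 * t))) : ℂ)) := by
  refine Integrable.mono (gi_real hc hz) ?_ (Eventually.of_forall fun t => ?_)
  · apply Continuous.aestronglyMeasurable
    fun_prop
  · rw [norm_mul, Complex.norm_exp, norm_real, Real.norm_eq_abs, Real.norm_eq_abs, abs_mul,
      Real.abs_exp]
    have e : (2 * z * (t : ℂ)).re = 2 * z.re * t := by simp
    rw [e, abs_of_pos (Real.exp_pos _)]

theorem gi_val {c : ℝ} (hc : 0 < c) {z : ℂ} (hz : 0 < z.re) :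
    (∫ t : ℝ, cexp (2 * z * t) * (Real.exp (-(c * Real.exp (2 * t))) : ℂ)) =
      1 / 2 * ((1 / c : ℂ) ^ z * Complex.Gamma z) := by
  have himg : (fun t : ℝ => Real.exp (2 * t)) '' Set.univ = Set.Ioi (0 : ℝ) := by
    ext v
    constructor
    · rintro ⟨t, -, rfl⟩
      exact Real.exp_pos _
    · intro hv
      refine ⟨Real.log v / 2, Set.mem_univ _, ?_⟩
      simp only
      rw [show 2 * (Real.log v / 2) = Real.log v by ring, Real.exp_log hv]
  have hder : ∀ t ∈ (Set.univ : Set ℝ), HasDerivWithinAt (fun t : ℝ => Real.exp (2 * t))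
      (2 * Real.exp (2 * t)) Set.univ t := by
    intro t _
    have h := ((hasDerivAt_id t).const_mul (2 : ℝ)).exp
    simp only [id, mul_one] at h
    exact (h.congr_deriv (by ring)).hasDerivWithinAt
  have hinj : Set.InjOn (fun t : ℝ => Real.exp (2 * t)) Set.univ := by
    intro a _ b _ hab
    have := Real.exp_injective hab
    linarith
  have h1 := integral_image_eq_integral_abs_deriv_smul MeasurableSet.univ hder hinj
    (fun v : ℝ => (v : ℂ) ^ (z - 1) * cexp (-((c : ℂ) * v)))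
  rw [himg, Complex.integral_cpow_mul_exp_neg_mul_Ioi hz hc, setIntegral_univ] at h1
  rw [h1, ← integral_const_mul]
  refine integral_congr_ae (Eventually.of_forall fun t => ?_)
  simp only [Complex.real_smul]
  rw [abs_of_pos (by positivity)]
  have hne : ((Real.exp (2 * t) : ℝ) : ℂ) ≠ 0 := by
    exact_mod_cast (Real.exp_pos _).ne'
  have e1 : ((Real.exp (2 * t) : ℝ) : ℂ) ^ (z - 1) = cexp (2 * t * (z - 1)) := by
    rw [Complex.cpow_def_of_ne_zero hne, ← Complex.ofReal_log (Real.exp_pos _).le, Real.log_exp]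
    push_cast
    ring_nf
  rw [e1]
  push_cast
  have e2 : cexp (2 * z * t) = cexp (2 * t) * cexp (2 * t * (z - 1)) := by
    rw [← Complex.exp_add]
    congr 1
    ring
  rw [e2]
  ring

/-! ## The terms of the kernel -/

/-- the term of the kernel -/
noncomputable def pt (n : ℕ) (t : ℝ) : ℝ :=
  (4 * Real.pi ^ 2 * (n : ℝ) ^ 4 * Real.exp (9 / 2 * t) -
    6 * Real.pi * (n : ℝ) ^ 2 * Real.exp (5 / 2 * t)) *
    Real.exp (-(Real.pi * (n : ℝ) ^ 2 * Real.exp (2 * t)))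

theorem continuous_pt (n : ℕ) : Continuous (pt n) := by
  unfold pt
  fun_prop

theorem hasSum_pt (t : ℝ) : HasSum (fun n : ℕ => pt (n + 1) t) (Pool.Agent.Helper242.KK.Ph t) := by
  have h := ((Pool.Agent.Helper242.RK.summable_Phi (t / 2)).hasSum).mul_left 2
  unfold Pool.Agent.Helper242.KK.Ph Pool.Agent.Helper242.RK.Phi
  have e : (fun n : ℕ => pt (n + 1) t) = fun n : ℕ =>
      2 * ((2 * ((n : ℝ) + 1) ^ 4 * Real.pi ^ 2 * Real.exp (9 * (t / 2))
        - 3 * ((n : ℝ) + 1) ^ 2 * Real.pi * Real.exp (5 * (t / 2))) *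
          Real.exp (-(((n : ℝ) + 1) ^ 2 * Real.pi * Real.exp (4 * (t / 2))))) := by
    funext n
    unfold pt
    push_cast
    rw [show 9 / 2 * t = 9 * (t / 2) by ring, show 5 / 2 * t = 5 * (t / 2) by ring,
      show 2 * t = 4 * (t / 2) by ring,
      show Real.pi * ((n : ℝ) + 1) ^ 2 * Real.exp (4 * (t / 2)) =
        ((n : ℝ) + 1) ^ 2 * Real.pi * Real.exp (4 * (t / 2)) by ring]
    ring
  rw [e]
  exact h

/-- the Mellin transform of a term -/
theorem mel {n : ℕ} (hn : n ≠ 0) {w : ℂ} (hw : -2 < w.re) :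
    Integrable (fun t : ℝ => (pt n t : ℂ) * cexp ((w - 1 / 2) * t)) ∧
    (∫ t : ℝ, (pt n t : ℂ) * cexp ((w - 1 / 2) * t)) =
      hh w * cexp (-(w * ((Real.log n : ℝ) : ℂ))) := by
  have hn0 : (0 : ℝ) < n := by exact_mod_cast Nat.pos_of_ne_zero hn
  have hc : 0 < Real.pi * (n : ℝ) ^ 2 := by positivity
  set c : ℝ := Real.pi * (n : ℝ) ^ 2 with hcdef
  have hz1 : 0 < (w / 2 + 2).re := by
    have : (w / 2 + 2).re = w.re / 2 + 2 := by simp
    rw [this]; linarith
  have hz2 : 0 < (w / 2 + 1).re := by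
    have : (w / 2 + 1).re = w.re / 2 + 1 := by simp
    rw [this]; linarith
  have hfun : (fun t : ℝ => (pt n t : ℂ) * cexp ((w - 1 / 2) * t)) = fun t : ℝ =>
      (4 * Real.pi ^ 2 * (n : ℂ) ^ 4) * (cexp (2 * (w / 2 + 2) * t) *
        (Real.exp (-(c * Real.exp (2 * t))) : ℂ)) -
      (6 * Real.pi * (n : ℂ) ^ 2) * (cexp (2 * (w / 2 + 1) * t) *
        (Real.exp (-(c * Real.exp (2 * t))) : ℂ)) := by
    funext t
    unfold pt
    rw [← hcdef]
    have e1 : cexp (2 * (w / 2 + 2) * t) = cexp (9 / 2 * t) * cexp ((w - 1 / 2) * t) := by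
      rw [← Complex.exp_add]
      congr 1
      ring
    have e2 : cexp (2 * (w / 2 + 1) * t) = cexp (5 / 2 * t) * cexp ((w - 1 / 2) * t) := by
      rw [← Complex.exp_add]
      congr 1
      ring
    rw [e1, e2]
    push_cast
    ring
  have i1 := (gi_int hc hz1).const_mul (4 * Real.pi ^ 2 * (n : ℂ) ^ 4)
  have i2 := (gi_int hc hz2).const_mul (6 * Real.pi * (n : ℂ) ^ 2)
  rw [hfun]
  refine ⟨i1.sub i2, ?_⟩
  rw [integral_sub i1 i2, integral_const_mul, integral_const_mul, gi_val hc hz1, gi_val hc hz2]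
  have hc0 : (c : ℂ) ≠ 0 := by exact_mod_cast hc.ne'
  have hinv : (1 / c : ℂ) ≠ 0 := one_div_ne_zero hc0
  have hG : Complex.Gamma (w / 2 + 2) = (w / 2 + 1) * Complex.Gamma (w / 2 + 1) := by
    have := Complex.Gamma_add_one (w / 2 + 1) (by
      intro h0
      rw [h0] at hz2
      simp at hz2)
    rw [← this]
    congr 1
    ring
  have hp2 : (1 / c : ℂ) ^ (w / 2 + 2) = (1 / c : ℂ) ^ (w / 2) * (1 / c) ^ 2 := by
    rw [Complex.cpow_add _ _ hinv]
    congr 1
    exact_mod_cast Complex.cpow_natCast (1 / c : ℂ) 2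
  have hp1 : (1 / c : ℂ) ^ (w / 2 + 1) = (1 / c : ℂ) ^ (w / 2) * (1 / c) := by
    rw [Complex.cpow_add _ _ hinv, Complex.cpow_one]
  have hpow : (1 / c : ℂ) ^ (w / 2) = cexp (-(w / 2) * ((Real.log Real.pi : ℝ) : ℂ)) *
      cexp (-(w * ((Real.log n : ℝ) : ℂ))) := by
    have e : (1 / c : ℂ) = ((1 / c : ℝ) : ℂ) := by push_cast; rfl
    rw [Complex.cpow_def_of_ne_zero hinv, e, ← Complex.ofReal_log (by positivity),
      ← Complex.exp_add]
    congr 1
    have e2 : Real.log (1 / c) = -(Real.log Real.pi + 2 * Real.log n) := by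
      rw [one_div, Real.log_inv, hcdef, Real.log_mul Real.pi_pos.ne' (by positivity),
        Real.log_pow]
      push_cast
      ring
    rw [e2]
    push_cast
    ring
  rw [hp2, hp1, hG, hpow]
  unfold hh
  rw [show (1 : ℂ) + w / 2 = w / 2 + 1 by ring]
  have hcc : (c : ℂ) = Real.pi * (n : ℂ) ^ 2 := by rw [hcdef]; push_cast; ring
  rw [hcc]
  have hpi : (Real.pi : ℂ) ≠ 0 := by exact_mod_cast Real.pi_pos.ne'
  have hnn : (n : ℂ) ≠ 0 := by exact_mod_cast hn
  field_simp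
  ring

/-- the absolute moment of a term -/
theorem pt_moment : ∃ C : ℝ, 0 ≤ C ∧ ∀ n : ℕ, n ≠ 0 →
    Integrable (fun t : ℝ => |pt n t| * Real.exp t) ∧
    (∫ t : ℝ, |pt n t| * Real.exp t) ≤ C * ((n : ℝ) ^ (3 / 2 : ℝ))⁻¹ := by
  have key : ∀ (c σ : ℝ), 0 < c → 0 < σ →
      (∫ t : ℝ, Real.exp (2 * σ * t) * Real.exp (-(c * Real.exp (2 * t)))) =
        1 / 2 * ((1 / c) ^ σ * Real.Gamma σ) := by
    intro c σ hc hσ
    have h := gi_val hc (z := (σ : ℂ)) (by simpa using hσ)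
    have e1 : (∫ t : ℝ, cexp (2 * (σ : ℂ) * t) * (Real.exp (-(c * Real.exp (2 * t))) : ℂ)) =
        ((∫ t : ℝ, Real.exp (2 * σ * t) * Real.exp (-(c * Real.exp (2 * t))) : ℝ) : ℂ) := by
      rw [← integral_complex_ofReal]
      refine integral_congr_ae (Eventually.of_forall fun t => ?_)
      simp only
      push_cast
      rfl
    have e2 : (1 / 2 * ((1 / c : ℂ) ^ (σ : ℂ) * Complex.Gamma (σ : ℂ)) : ℂ) =
        ((1 / 2 * ((1 / c) ^ σ * Real.Gamma σ) : ℝ) : ℂ) := by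
      rw [Complex.Gamma_ofReal]
      push_cast
      rw [Complex.ofReal_cpow (by positivity)]
      push_cast
      rfl
    rw [e1, e2] at h
    exact_mod_cast h
  refine ⟨4 * Real.pi ^ 2 * (1 / 2 * ((1 / Real.pi) ^ (11 / 4 : ℝ) * Real.Gamma (11 / 4))) +
    6 * Real.pi * (1 / 2 * ((1 / Real.pi) ^ (7 / 4 : ℝ) * Real.Gamma (7 / 4))), ?_, ?_⟩
  · have h1 := Real.Gamma_pos_of_pos (show (0 : ℝ) < 11 / 4 by norm_num)
    have h2 := Real.Gamma_pos_of_pos (show (0 : ℝ) < 7 / 4 by norm_num)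
    positivity
  intro n hn
  have hn0 : (0 : ℝ) < n := by exact_mod_cast Nat.pos_of_ne_zero hn
  have hc : 0 < Real.pi * (n : ℝ) ^ 2 := by positivity
  set c : ℝ := Real.pi * (n : ℝ) ^ 2 with hcdef
  set B : ℝ → ℝ := fun t => (4 * Real.pi ^ 2 * (n : ℝ) ^ 4) *
      (Real.exp (2 * (11 / 4) * t) * Real.exp (-(c * Real.exp (2 * t)))) +
    (6 * Real.pi * (n : ℝ) ^ 2) *
      (Real.exp (2 * (7 / 4) * t) * Real.exp (-(c * Real.exp (2 * t)))) with hB
  have j1 := (gi_real hc (show (0 : ℝ) < 11 / 4 by norm_num)).const_mul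
    (4 * Real.pi ^ 2 * (n : ℝ) ^ 4)
  have j2 := (gi_real hc (show (0 : ℝ) < 7 / 4 by norm_num)).const_mul
    (6 * Real.pi * (n : ℝ) ^ 2)
  have hBi : Integrable B := j1.add j2
  have hle : ∀ t, |pt n t| * Real.exp t ≤ B t := by
    intro t
    have h1 : |pt n t| ≤ (4 * Real.pi ^ 2 * (n : ℝ) ^ 4 * Real.exp (9 / 2 * t) +
        6 * Real.pi * (n : ℝ) ^ 2 * Real.exp (5 / 2 * t)) *
        Real.exp (-(c * Real.exp (2 * t))) := by
      unfold pt
      rw [← hcdef, abs_mul, abs_of_pos (Real.exp_pos (-(c * Real.exp (2 * t))))]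
      refine mul_le_mul_of_nonneg_right ?_ (Real.exp_pos _).le
      refine (abs_sub _ _).trans (le_of_eq ?_)
      rw [abs_of_nonneg (by positivity), abs_of_nonneg (by positivity)]
    have e1 : Real.exp (2 * (11 / 4) * t) = Real.exp (9 / 2 * t) * Real.exp t := by
      rw [← Real.exp_add]; congr 1; ring
    have e2 : Real.exp (2 * (7 / 4) * t) = Real.exp (5 / 2 * t) * Real.exp t := by
      rw [← Real.exp_add]; congr 1; ring
    calc |pt n t| * Real.exp t ≤ _ := mul_le_mul_of_nonneg_right h1 (Real.exp_pos t).le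
      _ = B t := by
        simp only [hB]
        rw [e1, e2]
        ring
  have hmeas : AEStronglyMeasurable (fun t : ℝ => |pt n t| * Real.exp t) :=
    ((continuous_pt n).abs.mul Real.continuous_exp).aestronglyMeasurable
  have hint : Integrable (fun t : ℝ => |pt n t| * Real.exp t) := by
    refine hBi.mono' hmeas (Eventually.of_forall fun t => ?_)
    rw [Real.norm_eq_abs, abs_of_nonneg (by positivity)]
    exact hle t
  refine ⟨hint, ?_⟩
  calc (∫ t : ℝ, |pt n t| * Real.exp t) ≤ ∫ t, B t := integral_mono hint hBi hle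
    _ = (4 * Real.pi ^ 2 * (n : ℝ) ^ 4) * (1 / 2 * ((1 / c) ^ (11 / 4 : ℝ) * Real.Gamma (11 / 4))) +
        (6 * Real.pi * (n : ℝ) ^ 2) * (1 / 2 * ((1 / c) ^ (7 / 4 : ℝ) * Real.Gamma (7 / 4))) := by
        simp only [hB]
        rw [integral_add j1 j2, integral_const_mul, integral_const_mul,
          key c (11 / 4) hc (by norm_num), key c (7 / 4) hc (by norm_num)]
    _ = _ := by
        have hpw : ∀ σ : ℝ, (1 / c) ^ σ = (1 / Real.pi) ^ σ * (n : ℝ) ^ (-(2 * σ)) := by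
          intro σ
          have e : 1 / c = (1 / Real.pi) * ((n : ℝ) ^ (2 : ℝ))⁻¹ := by
            rw [hcdef, Real.rpow_two]
            field_simp
          rw [e, Real.mul_rpow (by positivity) (by positivity), Real.inv_rpow (by positivity),
            ← Real.rpow_mul hn0.le, Real.rpow_neg hn0.le]
        rw [hpw, hpw]
        have e4 : (n : ℝ) ^ 4 * (n : ℝ) ^ (-(2 * (11 / 4) : ℝ)) = ((n : ℝ) ^ (3 / 2 : ℝ))⁻¹ := by
          rw [← Real.rpow_natCast, ← Real.rpow_add hn0, ← Real.rpow_neg hn0.le]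
          norm_num
        have e2 : (n : ℝ) ^ 2 * (n : ℝ) ^ (-(2 * (7 / 4) : ℝ)) = ((n : ℝ) ^ (3 / 2 : ℝ))⁻¹ := by
          rw [← Real.rpow_natCast, ← Real.rpow_add hn0, ← Real.rpow_neg hn0.le]
          norm_num
        linear_combination (4 * Real.pi ^ 2 * (1 / 2 * ((1 / Real.pi) ^ (11 / 4 : ℝ) *
          Real.Gamma (11 / 4)))) * e4 + (6 * Real.pi * (1 / 2 * ((1 / Real.pi) ^ (7 / 4 : ℝ) *
          Real.Gamma (7 / 4)))) * e2

/-! ## The Gaussian -/

/-- the Gaussian with complex centre -/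
noncomputable def Ga (μ a : ℝ) (y : ℝ) : ℂ := cexp (-((y : ℂ) - I * a) ^ 2 / (4 * μ))

theorem Ga_eq {μ : ℝ} (hμ : 0 < μ) (a t y : ℝ) : Ga μ a y * cexp (-(I * y * t)) =
    cexp ((-(1 / (4 * μ) : ℂ)) * (y : ℂ) ^ 2 + (I * a / (2 * μ) - I * t) * y + a ^ 2 / (4 * μ)) := by
  unfold Ga
  rw [← Complex.exp_add]
  congr 1
  have h : (μ : ℂ) ≠ 0 := by exact_mod_cast hμ.ne'
  field_simp
  have hI : (I : ℂ) ^ 2 = -1 := Complex.I_sq
  ring_nf
  rw [hI]
  ring

theorem re_aux {μ : ℝ} (hμ : 0 < μ) : 0 < (1 / (4 * μ) : ℂ).re := by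
  have e : (1 / (4 * μ) : ℂ) = ((1 / (4 * μ) : ℝ) : ℂ) := by push_cast; rfl
  rw [e, Complex.ofReal_re]
  positivity

theorem Ga_int {μ : ℝ} (hμ : 0 < μ) (a : ℝ) : Integrable (Ga μ a) := by
  have h := integrable_cexp_quadratic (re_aux hμ) (I * a / (2 * μ) - I * (0 : ℝ)) (a ^ 2 / (4 * μ))
  refine h.congr (Eventually.of_forall fun y => ?_)
  simp only
  rw [← Ga_eq hμ a 0 y]
  simp

theorem Ga_ft {μ : ℝ} (hμ : 0 < μ) (a t : ℝ) : (∫ y : ℝ, Ga μ a y * cexp (-(I * y * t))) =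
    (Real.sqrt (4 * Real.pi * μ) : ℂ) * cexp (a * t - μ * t ^ 2) := by
  have hb : (-(1 / (4 * μ) : ℂ)).re < 0 := by
    rw [Complex.neg_re]
    have := re_aux hμ
    linarith
  have h := integral_cexp_quadratic hb (I * a / (2 * μ) - I * t) (a ^ 2 / (4 * μ))
  have e : (∫ y : ℝ, Ga μ a y * cexp (-(I * y * t))) = ∫ y : ℝ,
      cexp ((-(1 / (4 * μ) : ℂ)) * (y : ℂ) ^ 2 + (I * a / (2 * μ) - I * t) * y + a ^ 2 / (4 * μ)) :=
    integral_congr_ae (Eventually.of_forall fun y => Ga_eq hμ a t y)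
  rw [e, h]
  have hμ0 : (μ : ℂ) ≠ 0 := by exact_mod_cast hμ.ne'
  congr 1
  · have e1 : (Real.pi : ℂ) / -(-(1 / (4 * μ) : ℂ)) = ((4 * Real.pi * μ : ℝ) : ℂ) := by
      push_cast
      field_simp
    rw [e1, Real.sqrt_eq_rpow, Complex.ofReal_cpow (by positivity)]
    push_cast
    rfl
  · congr 1
    have hI : (I : ℂ) ^ 2 = -1 := Complex.I_sq
    field_simp
    ring_nf
    rw [hI]
    ring

/-! ## One term -/

/-- the integral of a term -/
noncomputable def TT (μ x : ℝ) (n : ℕ) : ℂ :=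
  ∫ t : ℝ, (pt n t : ℂ) * cexp (-(μ : ℂ) * t ^ 2) * cexp (I * x * t)

theorem fub {μ : ℝ} (hμ : 0 < μ) (x : ℝ) {n : ℕ} (hn : n ≠ 0) {a : ℝ} (ha : a < 5 / 2) :
    Integrable (fun y : ℝ => Ga μ a y * (hh (1 / 2 - a + I * (x - y)) *
      cexp (-((1 / 2 - a + I * (x - y)) * ((Real.log n : ℝ) : ℂ))))) ∧
    TT μ x n = (Real.sqrt (4 * Real.pi * μ) : ℂ)⁻¹ * ∫ y : ℝ, Ga μ a y *
      (hh (1 / 2 - a + I * (x - y)) *
      cexp (-((1 / 2 - a + I * (x - y)) * ((Real.log n : ℝ) : ℂ)))) := by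
  set F : ℝ → ℝ → ℂ := fun y t => Ga μ a y * ((pt n t : ℂ) *
    cexp (((1 / 2 - a + I * (x - y)) - 1 / 2) * t)) with hF
  have hre : ∀ y : ℝ, (1 / 2 - (a : ℂ) + I * ((x : ℂ) - y)).re = 1 / 2 - a := by
    intro y
    simp
  have hw : ∀ y : ℝ, -2 < (1 / 2 - (a : ℂ) + I * ((x : ℂ) - y)).re := by
    intro y
    rw [hre y]
    linarith
  have hprod : Integrable (Function.uncurry F) (volume.prod volume) := by
    have h1 := (Ga_int hμ a).mul_prod (mel hn (hw 0)).1
    refine h1.mono ?_ (Eventually.of_forall fun p => ?_)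
    · apply Continuous.aestronglyMeasurable
      have := continuous_pt n
      simp only [hF, Ga]
      fun_prop
    · simp only [hF, Function.uncurry]
      rw [norm_mul, norm_mul, norm_mul, norm_mul, Complex.norm_exp, Complex.norm_exp]
      have e : ((1 / 2 - (a : ℂ) + I * ((x : ℂ) - (p.1 : ℝ)) - 1 / 2) * (p.2 : ℂ)).re =
          ((1 / 2 - (a : ℂ) + I * ((x : ℂ) - (0 : ℝ)) - 1 / 2) * (p.2 : ℂ)).re := by
        simp
      rw [e]
  have hinner : ∀ y : ℝ, (∫ t : ℝ, F y t) = Ga μ a y * (hh (1 / 2 - a + I * (x - y)) *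
      cexp (-((1 / 2 - a + I * (x - y)) * ((Real.log n : ℝ) : ℂ)))) := by
    intro y
    simp only [hF]
    rw [integral_const_mul, (mel hn (hw y)).2]
  have hI := hprod.integral_prod_left
  simp only [Function.uncurry] at hI
  refine ⟨hI.congr (Eventually.of_forall fun y => hinner y), ?_⟩
  have hswap := integral_integral_swap hprod
  simp only [hinner] at hswap
  rw [hswap]
  have houter : ∀ t : ℝ, (∫ y : ℝ, F y t) = (Real.sqrt (4 * Real.pi * μ) : ℂ) *
      ((pt n t : ℂ) * cexp (-(μ : ℂ) * t ^ 2) * cexp (I * x * t)) := by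
    intro t
    have e : ∀ y : ℝ, F y t = ((pt n t : ℂ) * cexp ((-a + I * x) * t)) *
        (Ga μ a y * cexp (-(I * y * t))) := by
      intro y
      simp only [hF]
      have e1 : cexp (((1 / 2 - a + I * (x - y)) - 1 / 2) * t) =
          cexp ((-a + I * x) * t) * cexp (-(I * y * t)) := by
        rw [← Complex.exp_add]
        congr 1
        ring
      rw [e1]
      ring
    simp only [e]
    rw [integral_const_mul, Ga_ft hμ a t]
    have e2 : cexp ((-a + I * x) * t) * cexp (a * t - μ * t ^ 2) =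
        cexp (-(μ : ℂ) * t ^ 2) * cexp (I * x * t) := by
      rw [← Complex.exp_add, ← Complex.exp_add]
      congr 1
      ring
    calc (pt n t : ℂ) * cexp ((-a + I * x) * t) *
          ((Real.sqrt (4 * Real.pi * μ) : ℂ) * cexp (a * t - μ * t ^ 2))
        = (Real.sqrt (4 * Real.pi * μ) : ℂ) * ((pt n t : ℂ) *
          (cexp ((-a + I * x) * t) * cexp (a * t - μ * t ^ 2))) := by ring
      _ = _ := by rw [e2]; ring
  simp only [houter]
  rw [integral_const_mul, ← mul_assoc, inv_mul_cancel₀, one_mul]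
  · rfl
  · have : 0 < Real.sqrt (4 * Real.pi * μ) := Real.sqrt_pos.2 (by positivity)
    exact_mod_cast this.ne'

/-! ## The sum over all terms -/

theorem norm_term_le {μ : ℝ} (hμ : 0 < μ) (x : ℝ) (n : ℕ) (t : ℝ) :
    ‖(pt n t : ℂ) * cexp (-(μ : ℂ) * t ^ 2) * cexp (I * x * t)‖ ≤
      Real.exp (1 / (4 * μ)) * (|pt n t| * Real.exp t) := by
  rw [norm_mul, norm_mul, norm_real, Real.norm_eq_abs, Complex.norm_exp, Complex.norm_exp]
  have e1 : (-(μ : ℂ) * (t : ℂ) ^ 2).re = -(μ * t ^ 2) := by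
    have : (-(μ : ℂ) * (t : ℂ) ^ 2) = ((-(μ * t ^ 2) : ℝ) : ℂ) := by push_cast; ring
    rw [this, Complex.ofReal_re]
  have e2 : (I * (x : ℂ) * (t : ℂ)).re = 0 := by simp
  rw [e1, e2, Real.exp_zero, mul_one]
  have h1 : Real.exp (-(μ * t ^ 2)) ≤ Real.exp (1 / (4 * μ)) * Real.exp t := by
    rw [← Real.exp_add]
    apply Real.exp_le_exp.2
    have h2 : 0 ≤ μ * (t + 1 / (2 * μ)) ^ 2 := by positivity
    have h3 : μ * (t + 1 / (2 * μ)) ^ 2 = μ * t ^ 2 + t + 1 / (4 * μ) := by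
      field_simp
      ring
    linarith
  calc |pt n t| * Real.exp (-(μ * t ^ 2)) ≤ |pt n t| * (Real.exp (1 / (4 * μ)) * Real.exp t) :=
        mul_le_mul_of_nonneg_left h1 (abs_nonneg _)
    _ = _ := by ring

theorem integrable_term {μ : ℝ} (hμ : 0 < μ) (x : ℝ) {n : ℕ} (hn : n ≠ 0) :
    Integrable (fun t : ℝ => (pt n t : ℂ) * cexp (-(μ : ℂ) * t ^ 2) * cexp (I * x * t)) := by
  obtain ⟨C, hC, h⟩ := pt_moment
  refine ((h n hn).1.const_mul (Real.exp (1 / (4 * μ)))).mono' ?_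
    (Eventually.of_forall fun t => norm_term_le hμ x n t)
  apply Continuous.aestronglyMeasurable
  have := continuous_pt n
  fun_prop

theorem summable_norm_TT {μ : ℝ} (hμ : 0 < μ) (x : ℝ) : Summable (fun n : ℕ =>
    ∫ t : ℝ, ‖(pt (n + 1) t : ℂ) * cexp (-(μ : ℂ) * t ^ 2) * cexp (I * x * t)‖) := by
  obtain ⟨C, hC, h⟩ := pt_moment
  have hs : Summable (fun n : ℕ => Real.exp (1 / (4 * μ)) *
      (C * (((n + 1 : ℕ) : ℝ) ^ (3 / 2 : ℝ))⁻¹)) := by
    apply Summable.mul_left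
    apply Summable.mul_left
    exact (summable_nat_add_iff 1).2 (Real.summable_nat_rpow_inv.2 (by norm_num))
  refine Summable.of_nonneg_of_le (fun n => integral_nonneg fun t => norm_nonneg _)
    (fun n => ?_) hs
  obtain ⟨h1, h2⟩ := h (n + 1) (Nat.succ_ne_zero n)
  calc (∫ t : ℝ, ‖(pt (n + 1) t : ℂ) * cexp (-(μ : ℂ) * t ^ 2) * cexp (I * x * t)‖)
      ≤ ∫ t : ℝ, Real.exp (1 / (4 * μ)) * (|pt (n + 1) t| * Real.exp t) :=
        integral_mono (integrable_term hμ x (Nat.succ_ne_zero n)).norm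
          (h1.const_mul _) (fun t => norm_term_le hμ x (n + 1) t)
    _ = Real.exp (1 / (4 * μ)) * ∫ t : ℝ, |pt (n + 1) t| * Real.exp t := integral_const_mul _ _
    _ ≤ _ := mul_le_mul_of_nonneg_left h2 (Real.exp_pos _).le

theorem hasSum_TT {μ : ℝ} (hμ : 0 < μ) (x : ℝ) :
    HasSum (fun n : ℕ => TT μ x (n + 1)) (XiM μ x) := by
  have h := hasSum_integral_of_summable_integral_norm
    (F := fun (n : ℕ) (t : ℝ) => (pt (n + 1) t : ℂ) * cexp (-(μ : ℂ) * t ^ 2) * cexp (I * x * t))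
    (fun n => integrable_term hμ x (Nat.succ_ne_zero n)) (summable_norm_TT hμ x)
  have e : (∫ t : ℝ, ∑' n : ℕ, (pt (n + 1) t : ℂ) * cexp (-(μ : ℂ) * t ^ 2) *
      cexp (I * x * t)) = XiM μ x := by
    change _ = Pool.Agent.Helper242.KK.XiM μ x
    unfold Pool.Agent.Helper242.KK.XiM Pool.Agent.Helper242.KK.FT
    refine integral_congr_ae (Eventually.of_forall fun t => ?_)
    simp only
    rw [tsum_mul_right, tsum_mul_right]
    have h1 : HasSum (fun n : ℕ => ((pt (n + 1) t : ℝ) : ℂ))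
        ((Pool.Agent.Helper242.KK.Ph t : ℝ) : ℂ) := by
      exact_mod_cast hasSum_pt t
    rw [h1.tsum_eq]
    unfold Pool.Agent.Helper242.KK.wk
    push_cast
    rfl
  rw [e] at h
  exact h

/-! ## Dyadic blocks -/

theorem sum_blocks (f : ℕ → ℂ) (J : ℕ) :
    ∑ j ∈ Finset.range J, ∑ n ∈ Finset.Ico (2 ^ j) (2 * 2 ^ j), f n =
      ∑ n ∈ Finset.range (2 ^ J - 1), f (n + 1) := by
  induction J with
  | zero => simp
  | succ J ih =>
    rw [Finset.sum_range_succ, ih]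
    have h1 : ∑ n ∈ Finset.range (2 ^ J - 1), f (n + 1) = ∑ n ∈ Finset.Ico 1 (2 ^ J), f n := by
      rw [Finset.sum_Ico_eq_sum_range]
      refine Finset.sum_congr rfl fun n _ => ?_
      rw [add_comm]
    have h2 : ∑ n ∈ Finset.range (2 ^ (J + 1) - 1), f (n + 1) =
        ∑ n ∈ Finset.Ico 1 (2 ^ (J + 1)), f n := by
      rw [Finset.sum_Ico_eq_sum_range]
      refine Finset.sum_congr rfl fun n _ => ?_
      rw [add_comm]
    rw [h1, h2, show 2 * 2 ^ J = 2 ^ (J + 1) by ring]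
    exact Finset.sum_Ico_consecutive f Nat.one_le_two_pow
      (Nat.pow_le_pow_right (by norm_num) (Nat.le_succ J))

theorem sum_blocks_real (f : ℕ → ℝ) (J : ℕ) :
    ∑ j ∈ Finset.range J, ∑ n ∈ Finset.Ico (2 ^ j) (2 * 2 ^ j), f n =
      ∑ n ∈ Finset.range (2 ^ J - 1), f (n + 1) := by
  have h := sum_blocks (fun n => (f n : ℂ)) J
  exact_mod_cast h

theorem hasSum_blocks {f : ℕ → ℂ} {S : ℂ} (hn : Summable fun n : ℕ => ‖f (n + 1)‖)
    (h : HasSum (fun n : ℕ => f (n + 1)) S) :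
    HasSum (fun j : ℕ => ∑ n ∈ Finset.Ico (2 ^ j) (2 * 2 ^ j), f n) S := by
  have hs : Summable (fun j : ℕ => ∑ n ∈ Finset.Ico (2 ^ j) (2 * 2 ^ j), f n) := by
    have h1 : Summable (fun j : ℕ => ∑ n ∈ Finset.Ico (2 ^ j) (2 * 2 ^ j), ‖f n‖) := by
      apply summable_of_sum_range_le (c := ∑' n : ℕ, ‖f (n + 1)‖)
      · intro j
        exact Finset.sum_nonneg fun n _ => norm_nonneg _
      · intro J
        rw [sum_blocks_real (fun n => ‖f n‖) J]
        exact hn.sum_le_tsum _ (fun n _ => norm_nonneg _)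
    exact Summable.of_norm_bounded h1 (fun j => norm_sum_le _ _)
  rw [hs.hasSum_iff_tendsto_nat]
  simp only [sum_blocks]
  have h2 := h.tendsto_sum_nat
  have h3 : Tendsto (fun J : ℕ => 2 ^ J - 1) atTop atTop := by
    apply tendsto_atTop_mono (f := fun J : ℕ => J) _ tendsto_id
    intro J
    have : J < 2 ^ J := Nat.lt_two_pow_self
    omega
  exact h2.comp h3

theorem t_HREP : S_HREP := by
  intro μ x hμ
  refine ⟨fun j => ∑ n ∈ Finset.Ico (2 ^ j) (2 * 2 ^ j), TT μ x n, ?_, ?_⟩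
  · apply hasSum_blocks _ (hasSum_TT hμ x)
    refine Summable.of_nonneg_of_le (fun n => norm_nonneg _) (fun n => ?_) (summable_norm_TT hμ x)
    exact norm_integral_le_integral_norm _
  · intro j a ha
    have ha' : a < 5 / 2 := by
      rcases ha with rfl | rfl <;> norm_num
    have hn : ∀ n ∈ Finset.Ico (2 ^ j) (2 * 2 ^ j), n ≠ 0 := by
      intro n hn
      have h1 := (Finset.mem_Ico.1 hn).1
      have h2 : 1 ≤ 2 ^ j := Nat.one_le_two_pow
      omega
    have hfun : (fun y : ℝ => cexp (-((y : ℂ) - I * a) ^ 2 / (4 * μ)) *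
        (hh (1 / 2 - a + I * (x - y)) * DD (2 ^ j) (1 / 2 - a + I * (x - y)))) =
        fun y : ℝ => ∑ n ∈ (Finset.Ico (2 ^ j) (2 * 2 ^ j) : Finset ℕ), Ga μ a y *
          (hh (1 / 2 - a + I * (x - y)) *
          cexp (-((1 / 2 - a + I * (x - y)) * ((Real.log (n : ℝ) : ℝ) : ℂ)))) := by
      funext y
      unfold DD Ga
      rw [Finset.mul_sum, Finset.mul_sum]
    rw [hfun]
    have hint : ∀ n ∈ (Finset.Ico (2 ^ j) (2 * 2 ^ j) : Finset ℕ), Integrable (fun y : ℝ => Ga μ a y *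
          (hh (1 / 2 - a + I * (x - y)) *
          cexp (-((1 / 2 - a + I * (x - y)) * ((Real.log (n : ℝ) : ℝ) : ℂ))))) :=
      fun n h => (fub hμ x (hn n h) ha').1
    refine ⟨integrable_finsetSum _ hint, ?_⟩
    rw [integral_finsetSum _ hint, Finset.mul_sum]
    exact Finset.sum_congr rfl fun n h => (fub hμ x (hn n h) ha').2

end Pool.Agent.H878.RZ.HREP
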